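import Mathlib

/-!
# G5: the freeze lemma with flags

`χ k`: the template is on. A step is either regular (on, not bad, `y = a`), or frozen (off, the exponent
grows by at most `e`), or a switch (the exponent grows by at most `e - s`).
-/

set_option autoImplicit false

namespace Pool.Agent.Helper66.G5

/-- frozen sequence with flags -/
structure Fq (a : ℕ → ℝ) (bad : ℕ → Prop) (e s : ℝ) (K : ℕ) (y : ℕ → ℝ) (χ : ℕ → Prop) : Prop where
  zero : y 0 = a 0
  zeroχ : χ 0
  last : y K = a K
  lastχ : χ K
  step : ∀ k < K, (¬ bad k ∧ χ k ∧ χ (k + 1) ∧ y k = a k ∧ y (k + 1) = a (k + 1)) ∨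
    (¬ χ k ∧ ¬ χ (k + 1) ∧ y (k + 1) ≤ y k + e) ∨ y (k + 1) + s ≤ y k + e

theorem freeze5_aux {a : ℕ → ℝ} {bad : ℕ → Prop} {e s C : ℝ} {L K : ℕ} (hL : 2 ≤ L)
    (hs : 0 ≤ s) (hC : C + 2 * s ≤ L * e)
    (h : ∀ k < K, bad k → ∃ k' : ℕ, k + L ≤ k' ∧ k' ≤ K ∧ |a k' - a k| ≤ C) :
    ∀ m k : ℕ, k ≤ K → K - k = m →
      ∃ (y : ℕ → ℝ) (χ : ℕ → Prop), y k = a k ∧ χ k ∧ y K = a K ∧ χ K ∧ ∀ j, k ≤ j → j < K →
        ((¬ bad j ∧ χ j ∧ χ (j + 1) ∧ y j = a j ∧ y (j + 1) = a (j + 1)) ∨
          (¬ χ j ∧ ¬ χ (j + 1) ∧ y (j + 1) ≤ y j + e) ∨ y (j + 1) + s ≤ y j + e) := by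
  classical
  intro m
  induction m using Nat.strong_induction_on with
  | _ m ih =>
    intro k hk hm
    rcases hk.eq_or_lt with rfl | hlt
    · exact ⟨a, fun _ => True, rfl, trivial, rfl, trivial, fun j h1 h2 => absurd h2 (not_lt.2 h1)⟩
    · by_cases hb : bad k
      · obtain ⟨k', h1, h2, h3⟩ := h k hlt hb
        have hkk' : k < k' := by omega
        obtain ⟨y', χ', e1, f1, e2, f2, e3⟩ := ih (K - k') (by omega) k' h2 rfl
        have hC0 : 0 ≤ C := (abs_nonneg _).trans h3
        have hd : (0 : ℝ) < (k' : ℝ) - k := by
          rw [sub_pos]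
          exact_mod_cast hkk'
        have hLd : (L : ℝ) ≤ (k' : ℝ) - k := by
          have : ((k + L : ℕ) : ℝ) ≤ (k' : ℝ) := by exact_mod_cast h1
          push_cast at this
          linarith
        have hL0 : (0 : ℝ) < L := by
          have : 0 < L := by omega
          exact_mod_cast this
        have he0 : 0 ≤ e := by
          by_contra hne
          push Not at hne
          have : (L : ℝ) * e < 0 := mul_neg_of_pos_of_neg hL0 hne
          linarith
        obtain ⟨i, hi⟩ : ∃ i : ℝ, i = (a k' - a k + 2 * s) / ((k' : ℝ) - k) := ⟨_, rfl⟩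
        have hid : i * ((k' : ℝ) - k) = a k' - a k + 2 * s := by
          rw [hi]
          field_simp
        have hinc : i ≤ e := by
          rw [hi, div_le_iff₀ hd]
          calc a k' - a k + 2 * s ≤ |a k' - a k| + 2 * s := by linarith [le_abs_self (a k' - a k)]
            _ ≤ C + 2 * s := by linarith
            _ ≤ L * e := hC
            _ ≤ ((k' : ℝ) - k) * e := by gcongr
            _ = e * ((k' : ℝ) - k) := mul_comm _ _
        refine ⟨fun j => if j ≤ k then a k else if j < k' then a k - s + ((j : ℝ) - k) * i else y' j,
          fun j => if j ≤ k then True else if j < k' then False else χ' j, ?_, ?_, ?_, ?_, ?_⟩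
        · simp
        · simp
        · have g1 : ¬ K ≤ k := by omega
          have g2 : ¬ K < k' := by omega
          simp only [g1, g2, if_false]
          exact e2
        · have g1 : ¬ K ≤ k := by omega
          have g2 : ¬ K < k' := by omega
          simp only [g1, g2, if_false]
          exact f2
        · intro j hj1 hj2
          rcases hj1.eq_or_lt with rfl | hj
          · -- the switch off
            right
            right
            have g1 : ¬ k + 1 ≤ k := by omega
            have g2 : k + 1 < k' := by omega
            simp only [le_refl, g1, g2, if_true, if_false]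
            push_cast
            have : a k - s + ((k : ℝ) + 1 - k) * i + s = a k + i := by ring
            linarith
          · by_cases hj' : j + 1 < k'
            · right
              left
              have g1 : ¬ j ≤ k := by omega
              have g2 : j < k' := by omega
              have g3 : ¬ j + 1 ≤ k := by omega
              simp only [g1, g2, g3, hj', if_true, if_false, not_false_eq_true, true_and]
              push_cast
              have : a k - s + ((j : ℝ) + 1 - k) * i = a k - s + ((j : ℝ) - k) * i + i := by ring
              linarith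
            · by_cases hj'' : j < k'
              · -- the switch on
                right
                right
                have hjk : j + 1 = k' := by omega
                have g1 : ¬ j ≤ k := by omega
                have g3 : ¬ j + 1 ≤ k := by omega
                simp only [g1, hj'', g3, hj', if_true, if_false]
                rw [hjk, e1]
                have hjr : (j : ℝ) = k' - 1 := by
                  rw [← hjk]
                  push_cast
                  ring
                rw [hjr]
                have : a k - s + ((k' : ℝ) - 1 - k) * i = a k - s + i * ((k' : ℝ) - k) - i := by ring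
                linarith
              · have g1 : ¬ j ≤ k := by omega
                have g3 : ¬ j + 1 ≤ k := by omega
                simp only [g1, hj'', g3, hj', if_false]
                exact e3 j (by omega) hj2
      · obtain ⟨y', χ', e1, f1, e2, f2, e3⟩ := ih (K - (k + 1)) (by omega) (k + 1) hlt rfl
        refine ⟨fun j => if j ≤ k then a k else y' j, fun j => if j ≤ k then True else χ' j,
          by simp, by simp, ?_, ?_, ?_⟩
        · have : ¬ K ≤ k := by omega
          simp only [this, if_false]
          exact e2
        · have : ¬ K ≤ k := by omega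
          simp only [this, if_false]
          exact f2
        · intro j hj1 hj2
          rcases hj1.eq_or_lt with rfl | hj
          · left
            have : ¬ k + 1 ≤ k := by omega
            simp only [this, le_refl, if_true, if_false]
            exact ⟨hb, trivial, f1, trivial, e1⟩
          · have h1 : ¬ j ≤ k := by omega
            have h2 : ¬ j + 1 ≤ k := by omega
            simp only [h1, h2, if_false]
            exact e3 j hj hj2

/-- **the freeze lemma with flags** -/
theorem freeze5 {a : ℕ → ℝ} {bad : ℕ → Prop} {e s C : ℝ} {L K : ℕ} (hL : 2 ≤ L)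
    (hs : 0 ≤ s) (hC : C + 2 * s ≤ L * e)
    (h : ∀ k < K, bad k → ∃ k' : ℕ, k + L ≤ k' ∧ k' ≤ K ∧ |a k' - a k| ≤ C) :
    ∃ (y : ℕ → ℝ) (χ : ℕ → Prop), Fq a bad e s K y χ := by
  obtain ⟨y, χ, h0, g0, h1, g1, h2⟩ := freeze5_aux hL hs hC h (K - 0) 0 (Nat.zero_le K) rfl
  exact ⟨y, χ, h0, g0, h1, g1, fun k hk => h2 k (Nat.zero_le k) hk⟩

end Pool.Agent.Helper66.G5
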