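import Mathlib

/-!
# G5: the flagged functional

`jj` is the density with the template `k` at the position `ζ`, switched off where the flag `χ` is
false; `V5` the infimum over `ζ ≠ 0` of its integral. No measurability of `χ`, `f`, `k` is needed: the
lower integral is superadditive.
-/

set_option autoImplicit false

namespace Pool.Agent.Helper66.G5

open MeasureTheory Set
open scoped Real ENNReal

open Classical in
/-- the density with flag -/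
noncomputable def jj (F : ℂ → ℂ) (k : ℂ → ℝ) (β : ℝ) (χ : ℂ → Prop) (f : ℂ → ℝ) (p ζ u : ℂ) : ℝ :=
  ‖deriv F u‖ ^ 2 * (Real.exp (f u) * (1 - β * (if χ u then k ((F u - p) / ζ) else 0)))

/-- the functional -/
noncomputable def V5 (F : ℂ → ℂ) (k : ℂ → ℝ) (β : ℝ) (S : Set ℂ) (χ : ℂ → Prop) (f : ℂ → ℝ)
    (p : ℂ) : ℝ≥0∞ :=
  ⨅ ζ : {ζ : ℂ // ζ ≠ 0}, ∫⁻ u in S, ENNReal.ofReal (jj F k β χ f p ζ u)

/-- the plain functional -/
noncomputable def V0 (F : ℂ → ℂ) (S : Set ℂ) (f : ℂ → ℝ) : ℝ≥0∞ :=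
  ∫⁻ u in S, ENNReal.ofReal (‖deriv F u‖ ^ 2 * Real.exp (f u))

section

variable {F : ℂ → ℂ} {k : ℂ → ℝ} {β : ℝ} {χ : ℂ → Prop} {f : ℂ → ℝ} {p ζ u : ℂ} {S : Set ℂ}

/-- the template with flag is between `-1` and `1` -/
theorem jj_flag (hk : ∀ z, |k z| ≤ 1) :
    ∃ x : ℝ, |x| ≤ 1 ∧ jj F k β χ f p ζ u = ‖deriv F u‖ ^ 2 * (Real.exp (f u) * (1 - β * x)) := by
  unfold jj
  by_cases hχ : χ u
  · rw [if_pos hχ]
    exact ⟨_, hk _, rfl⟩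
  · rw [if_neg hχ]
    exact ⟨0, by simp, rfl⟩

theorem jj_on (hχ : χ u) :
    jj F k β χ f p ζ u = ‖deriv F u‖ ^ 2 * (Real.exp (f u) * (1 - β * k ((F u - p) / ζ))) := by
  unfold jj
  rw [if_pos hχ]

theorem jj_off (hχ : ¬ χ u) :
    jj F k β χ f p ζ u = ‖deriv F u‖ ^ 2 * Real.exp (f u) := by
  unfold jj
  rw [if_neg hχ, mul_zero, sub_zero, mul_one]

theorem jj_ge (hk : ∀ z, |k z| ≤ 1) (hβ : 0 ≤ β) :
    (1 - β) * (‖deriv F u‖ ^ 2 * Real.exp (f u)) ≤ jj F k β χ f p ζ u := by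
  obtain ⟨x, hx, hj⟩ := jj_flag (F := F) (β := β) (χ := χ) (f := f) (p := p) (ζ := ζ) (u := u) hk
  rw [hj]
  have h1 : β * x ≤ β := by
    have := mul_le_mul_of_nonneg_left (abs_le.1 hx).2 hβ
    linarith
  have h2 : 0 ≤ ‖deriv F u‖ ^ 2 * Real.exp (f u) := by positivity
  have h3 := mul_le_mul_of_nonneg_left h1 h2
  nlinarith

theorem jj_le (hk : ∀ z, |k z| ≤ 1) (hβ : 0 ≤ β) :
    jj F k β χ f p ζ u ≤ (1 + β) * (‖deriv F u‖ ^ 2 * Real.exp (f u)) := by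
  obtain ⟨x, hx, hj⟩ := jj_flag (F := F) (β := β) (χ := χ) (f := f) (p := p) (ζ := ζ) (u := u) hk
  rw [hj]
  have h1 : -β ≤ β * x := by
    have := mul_le_mul_of_nonneg_left (abs_le.1 hx).1 hβ
    linarith
  have h2 : 0 ≤ ‖deriv F u‖ ^ 2 * Real.exp (f u) := by positivity
  have h3 := mul_le_mul_of_nonneg_left h1 h2
  nlinarith

theorem jj_nonneg (hk : ∀ z, |k z| ≤ 1) (hβ : 0 ≤ β) (hβ1 : β ≤ 1) : 0 ≤ jj F k β χ f p ζ u :=
  le_trans (mul_nonneg (by linarith) (by positivity)) (jj_ge hk hβ)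

theorem int_ge (hk : ∀ z, |k z| ≤ 1) (hβ : 0 ≤ β) (hβ1 : β ≤ 1) (ζ : ℂ) :
    ENNReal.ofReal (1 - β) * V0 F S f ≤ ∫⁻ u in S, ENNReal.ofReal (jj F k β χ f p ζ u) := by
  unfold V0
  rw [← lintegral_const_mul' _ _ ENNReal.ofReal_ne_top]
  apply lintegral_mono
  intro u
  simp only
  rw [← ENNReal.ofReal_mul (by linarith)]
  exact ENNReal.ofReal_le_ofReal (jj_ge hk hβ)

theorem V5_ge (hk : ∀ z, |k z| ≤ 1) (hβ : 0 ≤ β) (hβ1 : β ≤ 1) :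
    ENNReal.ofReal (1 - β) * V0 F S f ≤ V5 F k β S χ f p :=
  le_iInf fun ζ => int_ge hk hβ hβ1 ζ

theorem V5_le_int (hζ : ζ ≠ 0) :
    V5 F k β S χ f p ≤ ∫⁻ u in S, ENNReal.ofReal (jj F k β χ f p ζ u) :=
  iInf_le (fun ζ : {ζ : ℂ // ζ ≠ 0} => ∫⁻ u in S, ENNReal.ofReal (jj F k β χ f p ζ u)) ⟨ζ, hζ⟩

theorem V5_le (hk : ∀ z, |k z| ≤ 1) (hβ : 0 ≤ β) :
    V5 F k β S χ f p ≤ ENNReal.ofReal (1 + β) * V0 F S f := by
  refine (V5_le_int (ζ := 1) one_ne_zero).trans ?_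
  unfold V0
  rw [← lintegral_const_mul' _ _ ENNReal.ofReal_ne_top]
  apply lintegral_mono
  intro u
  simp only
  rw [← ENNReal.ofReal_mul (by linarith)]
  exact ENNReal.ofReal_le_ofReal (jj_le hk hβ)

/-- superadditivity over finitely many disjoint pieces -/
theorem lint_add {ι : Type*} (s : Finset ι) {T : Set ℂ} {Q : ι → Set ℂ}
    (hQ : ∀ i ∈ s, MeasurableSet (Q i)) (hd : (s : Set ι).PairwiseDisjoint Q)
    (hdT : ∀ i ∈ s, Disjoint T (Q i)) (hTS : T ⊆ S) (hQS : ∀ i ∈ s, Q i ⊆ S) (g : ℂ → ℝ≥0∞) :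
    (∫⁻ u in T, g u) + ∑ i ∈ s, (∫⁻ u in Q i, g u) ≤ ∫⁻ u in S, g u := by
  rw [← lintegral_biUnion_finset hd hQ, ← lintegral_union]
  · apply lintegral_mono_set
    exact union_subset hTS (iUnion₂_subset hQS)
  · exact Finset.measurableSet_biUnion s hQ
  · rw [disjoint_iUnion₂_right]
    exact hdT

theorem V5_add (hk : ∀ z, |k z| ≤ 1) (hβ : 0 ≤ β) (hβ1 : β ≤ 1) {ι : Type*} (s : Finset ι)
    {T : Set ℂ} {Q : ι → Set ℂ} (hQ : ∀ i ∈ s, MeasurableSet (Q i))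
    (hd : (s : Set ι).PairwiseDisjoint Q) (hdT : ∀ i ∈ s, Disjoint T (Q i)) (hTS : T ⊆ S)
    (hQS : ∀ i ∈ s, Q i ⊆ S) :
    ENNReal.ofReal (1 - β) * V0 F T f + ∑ i ∈ s, V5 F k β (Q i) χ f p ≤ V5 F k β S χ f p := by
  apply le_iInf
  intro ζ
  refine le_trans (add_le_add (int_ge hk hβ hβ1 ζ) (Finset.sum_le_sum fun i _ => V5_le_int ζ.2))
    (lint_add s hQ hd hdT hTS hQS _)

end

/-- the step, abstract: lower integrals -/
theorem step_abs {S : Set ℂ} {ι : Type*} {g g' : ι → ℂ → ℝ≥0∞} (i₀ : ι) {e B : ℝ} (he : 0 < e)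
    {E : ℝ≥0∞}
    (h : ∀ i, ∃ ν : ℝ, 0 ≤ ν ∧ ν ≤ B ∧ ∃ err : ℂ → ℝ≥0∞, AEMeasurable err (volume.restrict S) ∧
      (∀ u ∈ S, g' i u + ENNReal.ofReal ν * g i₀ u ≤ ENNReal.ofReal (e + ν) * g i u + err u) ∧
      ∫⁻ u in S, err u ≤ E) (hS : MeasurableSet S) :
    ⨅ i, ∫⁻ u in S, g' i u ≤ ENNReal.ofReal e * (⨅ i, ∫⁻ u in S, g i u) + E := by
  obtain ⟨V, hV⟩ : ∃ V : ℝ≥0∞, V = ⨅ i, ∫⁻ u in S, g i u := ⟨_, rfl⟩
  rw [← hV]
  by_cases hVt : V = ⊤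
  · rw [hVt, ENNReal.mul_top (ENNReal.ofReal_pos.2 he).ne', top_add]
    exact le_top
  by_cases hEt : E = ⊤
  · rw [hEt, add_top]
    exact le_top
  have hB : 0 ≤ B := by
    obtain ⟨ν, h1, h2, -⟩ := h i₀
    linarith
  have hne : ENNReal.ofReal (e + B) ≠ 0 := (ENNReal.ofReal_pos.2 (by linarith)).ne'
  apply ENNReal.le_of_forall_pos_le_add
  intro η hη _
  obtain ⟨η', hη'⟩ : ∃ η' : ℝ≥0∞, η' = (η : ℝ≥0∞) / ENNReal.ofReal (e + B) := ⟨_, rfl⟩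
  have hη'0 : η' ≠ 0 := by
    rw [hη']
    exact (ENNReal.div_pos (by exact_mod_cast hη.ne') ENNReal.ofReal_ne_top).ne'
  have hlt : (⨅ i, ∫⁻ u in S, g i u) < V + η' := by
    rw [← hV]
    exact ENNReal.lt_add_right hVt hη'0
  obtain ⟨i, hi⟩ := iInf_lt_iff.1 hlt
  obtain ⟨ν, hν0, hνB, err, hm, hp, hE⟩ := h i
  have h1 : (∫⁻ u in S, g' i u) + ENNReal.ofReal ν * ∫⁻ u in S, g i₀ u ≤
      ENNReal.ofReal (e + ν) * (∫⁻ u in S, g i u) + ∫⁻ u in S, err u := by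
    rw [← lintegral_const_mul' _ _ ENNReal.ofReal_ne_top, ← lintegral_const_mul' _ _
      ENNReal.ofReal_ne_top, ← lintegral_add_right' _ hm]
    exact (le_lintegral_add _ _).trans (setLIntegral_mono' hS hp)
  have h2 : V ≤ ∫⁻ u in S, g i₀ u := by
    rw [hV]
    exact iInf_le _ i₀
  have h3 : (⨅ i, ∫⁻ u in S, g' i u) ≤ ∫⁻ u in S, g' i u := iInf_le _ i
  have h4 : (⨅ i, ∫⁻ u in S, g' i u) + ENNReal.ofReal ν * V ≤
      (ENNReal.ofReal e * V + E + η) + ENNReal.ofReal ν * V := by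
    calc (⨅ i, ∫⁻ u in S, g' i u) + ENNReal.ofReal ν * V
        ≤ (∫⁻ u in S, g' i u) + ENNReal.ofReal ν * ∫⁻ u in S, g i₀ u := by gcongr
      _ ≤ ENNReal.ofReal (e + ν) * (∫⁻ u in S, g i u) + ∫⁻ u in S, err u := h1
      _ ≤ ENNReal.ofReal (e + ν) * (V + η') + E := by gcongr
      _ ≤ (ENNReal.ofReal e * V + E + η) + ENNReal.ofReal ν * V := by
          rw [ENNReal.ofReal_add he.le hν0, mul_add, add_mul, ← ENNReal.ofReal_add he.le hν0]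
          have h5 : ENNReal.ofReal (e + ν) * η' ≤ η := by
            calc ENNReal.ofReal (e + ν) * η' ≤ ENNReal.ofReal (e + B) * η' := by
                  gcongr
              _ = η := by
                  rw [hη', ENNReal.mul_div_cancel hne ENNReal.ofReal_ne_top]
          calc ENNReal.ofReal e * V + ENNReal.ofReal ν * V + ENNReal.ofReal (e + ν) * η' + E
              ≤ ENNReal.ofReal e * V + ENNReal.ofReal ν * V + η + E := by gcongr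
            _ = (ENNReal.ofReal e * V + E + η) + ENNReal.ofReal ν * V := by ring
  exact (ENNReal.add_le_add_iff_right (ENNReal.mul_ne_top ENNReal.ofReal_ne_top hVt)).1 h4

/-- **the step of the flagged functional** -/
theorem V5_step {F : ℂ → ℂ} {k : ℂ → ℝ} (hk : ∀ z, |k z| ≤ 1) {β : ℝ} (hβ : 0 ≤ β) (hβ1 : β ≤ 1)
    {S : Set ℂ} (hS : MeasurableSet S) {χ χ' : ℂ → Prop} {f f' : ℂ → ℝ} {p p' ζ₀ : ℂ}
    (hζ₀ : ζ₀ ≠ 0) {e B : ℝ} (he : 0 < e) {E : ℝ≥0∞}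
    (h : ∀ ζ : ℂ, ζ ≠ 0 → ∃ ν : ℝ, 0 ≤ ν ∧ ν ≤ B ∧
      ∃ err : ℂ → ℝ≥0∞, AEMeasurable err (volume.restrict S) ∧
      (∀ u ∈ S, ENNReal.ofReal (jj F k β χ' f' p' ζ u + ν * jj F k β χ f p ζ₀ u) ≤
        ENNReal.ofReal ((e + ν) * jj F k β χ f p ζ u) + err u) ∧
      ∫⁻ u in S, err u ≤ E) :
    V5 F k β S χ' f' p' ≤ ENNReal.ofReal e * V5 F k β S χ f p + E := by
  refine step_abs (g' := fun (ζ : {ζ : ℂ // ζ ≠ 0}) u => ENNReal.ofReal (jj F k β χ' f' p' ζ u))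
    (g := fun (ζ : {ζ : ℂ // ζ ≠ 0}) u => ENNReal.ofReal (jj F k β χ f p ζ u)) ⟨ζ₀, hζ₀⟩ (B := B) he
    ?_ hS
  intro ζ
  obtain ⟨ν, h0, h1, err, hm, hp, hE⟩ := h ζ ζ.2
  refine ⟨ν, h0, h1, err, hm, ?_, hE⟩
  intro u hu
  have h2 := hp u hu
  rw [ENNReal.ofReal_add (jj_nonneg hk hβ hβ1) (mul_nonneg h0 (jj_nonneg hk hβ hβ1)),
    ENNReal.ofReal_mul h0, ENNReal.ofReal_mul (by linarith)] at h2
  exact h2

end Pool.Agent.Helper66.G5
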