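import Mathlib

/-!
# G5: the pointwise step, real numbers

`G = |F'|²`, `a, a'` the old and the new exponent, `k₁` the new template, `k₂` the old template at the
same position, `k₃` the old template at the extremal position.
-/

set_option autoImplicit false

namespace Pool.Agent.Helper66.G5

/-- regular step, far from the reference point -/
theorem pt_far {G β ν k1 k2 k3 a a' E0 e X H δ : ℝ} (hG : 0 ≤ G) (hβ1 : β * k1 ≤ 1)
    (hβ2 : β * k2 ≤ 1) (ha : a' ≤ a + δ * X)
    (hkey : Real.exp (δ * X) * (1 - β * k1) - E0 * (1 - β * k2) + ν * β * (k2 - k3) ≤ δ * H)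
    (he : E0 ≤ e) :
    G * (Real.exp a' * (1 - β * k1)) + ν * (G * (Real.exp a * (1 - β * k3))) ≤
      (e + ν) * (G * (Real.exp a * (1 - β * k2))) + G * (Real.exp a * (δ * H)) := by
  have h1 : Real.exp a' ≤ Real.exp a * Real.exp (δ * X) := by
    rw [← Real.exp_add]
    exact Real.exp_le_exp.2 ha
  have hea := Real.exp_pos a
  have h2 : G * (Real.exp a' * (1 - β * k1)) ≤
      G * (Real.exp a * Real.exp (δ * X) * (1 - β * k1)) :=
    mul_le_mul_of_nonneg_left (mul_le_mul_of_nonneg_right h1 (by linarith)) hG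
  have h3 : E0 * (1 - β * k2) ≤ e * (1 - β * k2) := mul_le_mul_of_nonneg_right he (by linarith)
  have h4 : Real.exp (δ * X) * (1 - β * k1) + ν * (1 - β * k3) ≤
      (e + ν) * (1 - β * k2) + δ * H := by nlinarith
  have h5 := mul_le_mul_of_nonneg_left h4 (mul_nonneg hG hea.le)
  nlinarith

/-- regular step, near the reference point -/
theorem pt_near {G β ν k1 k2 k3 a a' e Y B b δ : ℝ} (hG : 0 ≤ G) (hδ : 0 ≤ δ) (hb : 0 ≤ b)
    (hb1 : b ≤ 1) (hβ : β = δ * b) (hβ1 : β ≤ 1) (hk1 : |k1| ≤ 1) (hk2 : |k2| ≤ 1)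
    (hk3 : |k3| ≤ 1) (hν : 0 ≤ ν) (hνB : ν ≤ B) (ha : a' ≤ a + δ * Y) (hY : 0 ≤ Y)
    (hδY : δ * Y ≤ 1) (he : 1 ≤ e) :
    G * (Real.exp a' * (1 - β * k1)) + ν * (G * (Real.exp a * (1 - β * k3))) ≤
      (e + ν) * (G * (Real.exp a * (1 - β * k2))) +
        G * (Real.exp a * (δ * (2 * Y + 4 + 2 * B))) := by
  have hβ0 : 0 ≤ β := by
    rw [hβ]
    positivity
  have hea := Real.exp_pos a
  have h1 : Real.exp a' ≤ Real.exp a * Real.exp (δ * Y) := by
    rw [← Real.exp_add]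
    exact Real.exp_le_exp.2 ha
  have hdY : 0 ≤ δ * Y := mul_nonneg hδ hY
  have hexp : Real.exp (δ * Y) ≤ 1 + 2 * (δ * Y) := by
    have h := Real.abs_exp_sub_one_sub_id_le (x := δ * Y) (by rw [abs_of_nonneg hdY]; exact hδY)
    have h' := (abs_le.1 h).2
    nlinarith
  have b1 : β * k1 ≤ β ∧ -β ≤ β * k1 := by
    have := abs_le.1 hk1
    constructor <;> nlinarith
  have b2 : β * k2 ≤ β ∧ -β ≤ β * k2 := by
    have := abs_le.1 hk2
    constructor <;> nlinarith
  have b3 : β * k3 ≤ β ∧ -β ≤ β * k3 := by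
    have := abs_le.1 hk3
    constructor <;> nlinarith
  have h2 : Real.exp a' * (1 - β * k1) ≤ Real.exp a * (1 + 2 * (δ * Y)) * (1 + β) := by
    calc Real.exp a' * (1 - β * k1) ≤ Real.exp a * Real.exp (δ * Y) * (1 + β) :=
          mul_le_mul h1 (by linarith [b1.2]) (by linarith [b1.1]) (by positivity)
      _ ≤ Real.exp a * (1 + 2 * (δ * Y)) * (1 + β) := by gcongr
  have hβδ : β ≤ δ := by
    rw [hβ]
    nlinarith
  have h3 : (1 + 2 * (δ * Y)) * (1 + β) + ν * (1 + β) ≤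
      (e + ν) * (1 - β) + δ * (2 * Y + 4 + 2 * B) := by
    have h4 : (1 - β) ≤ e * (1 - β) := by nlinarith
    have h5 : 2 * (δ * Y) * β ≤ 2 * β := by nlinarith
    have h6 : ν * β ≤ B * δ := mul_le_mul hνB hβδ hβ0 (hν.trans hνB)
    nlinarith
  have h7 : ν * (1 - β * k3) ≤ ν * (1 + β) := mul_le_mul_of_nonneg_left (by linarith [b3.2]) hν
  have h8 : (e + ν) * (1 - β) ≤ (e + ν) * (1 - β * k2) :=
    mul_le_mul_of_nonneg_left (by linarith [b2.1]) (by linarith)
  have h9 : Real.exp a' * (1 - β * k1) + ν * (Real.exp a * (1 - β * k3)) ≤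
      (e + ν) * (Real.exp a * (1 - β * k2)) + Real.exp a * (δ * (2 * Y + 4 + 2 * B)) := by
    have h10 := mul_le_mul_of_nonneg_left h3 hea.le
    have h11 := mul_le_mul_of_nonneg_left h7 hea.le
    have h12 := mul_le_mul_of_nonneg_left h8 hea.le
    nlinarith
  have h13 := mul_le_mul_of_nonneg_left h9 hG
  nlinarith

/-- frozen step -/
theorem pt_off {G ν a a' e1 e : ℝ} (hG : 0 ≤ G) (ha : a' ≤ a + e1) (he : Real.exp e1 ≤ e) :
    G * Real.exp a' + ν * (G * Real.exp a) ≤ (e + ν) * (G * Real.exp a) := by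
  have h1 : Real.exp a' ≤ Real.exp a * Real.exp e1 := by
    rw [← Real.exp_add]
    exact Real.exp_le_exp.2 ha
  have hea := Real.exp_pos a
  have h2 : Real.exp a' ≤ e * Real.exp a := by nlinarith
  have h3 := mul_le_mul_of_nonneg_left h2 hG
  nlinarith

/-- switch -/
theorem pt_switch {G β ν k1 k2 k3 a a' e1 s e B : ℝ} (hG : 0 ≤ G) (hβ0 : 0 ≤ β) (hβ1 : β ≤ 1)
    (hk1 : |k1| ≤ 1) (hk2 : |k2| ≤ 1) (hk3 : |k3| ≤ 1) (hν : 0 ≤ ν) (hνB : ν ≤ B)
    (ha : a' + s ≤ a + e1) (he1 : 0 ≤ e1) (he : Real.exp e1 ≤ e) (hs : 4 * β * (1 + B) ≤ s)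
    (hs1 : s ≤ 1) :
    G * (Real.exp a' * (1 - β * k1)) + ν * (G * (Real.exp a * (1 - β * k3))) ≤
      (e + ν) * (G * (Real.exp a * (1 - β * k2))) := by
  have hea := Real.exp_pos a
  have hB : 0 ≤ B := hν.trans hνB
  have hs0 : 0 ≤ s := le_trans (by positivity) hs
  have hE1 : 1 ≤ Real.exp e1 := Real.one_le_exp he1
  have h1 : Real.exp a' ≤ Real.exp a * (Real.exp e1 * Real.exp (-s)) := by
    rw [← Real.exp_add, ← Real.exp_add]
    exact Real.exp_le_exp.2 (by linarith)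
  have hexp : Real.exp (-s) ≤ 1 - s / 2 := by
    have h := Real.add_one_le_exp s
    have h' : Real.exp (-s) * Real.exp s = 1 := by
      rw [← Real.exp_add, neg_add_cancel, Real.exp_zero]
    have h'' : Real.exp (-s) * (s + 1) ≤ Real.exp (-s) * Real.exp s :=
      mul_le_mul_of_nonneg_left h (Real.exp_pos _).le
    rw [h'] at h''
    by_contra hc
    push Not at hc
    have h3 : (1 - s / 2) * (s + 1) < Real.exp (-s) * (s + 1) :=
      mul_lt_mul_of_pos_right hc (by linarith)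
    nlinarith
  have b1 : β * k1 ≤ β ∧ -β ≤ β * k1 := by
    have := abs_le.1 hk1
    constructor <;> nlinarith
  have b2 : β * k2 ≤ β ∧ -β ≤ β * k2 := by
    have := abs_le.1 hk2
    constructor <;> nlinarith
  have b3 : β * k3 ≤ β ∧ -β ≤ β * k3 := by
    have := abs_le.1 hk3
    constructor <;> nlinarith
  have h2 : Real.exp a' * (1 - β * k1) ≤
      Real.exp a * (Real.exp e1 * (1 - s / 2)) * (1 + β) := by
    calc Real.exp a' * (1 - β * k1)
        ≤ Real.exp a * (Real.exp e1 * Real.exp (-s)) * (1 + β) :=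
          mul_le_mul h1 (by linarith [b1.2]) (by linarith [b1.1]) (by positivity)
      _ ≤ Real.exp a * (Real.exp e1 * (1 - s / 2)) * (1 + β) := by gcongr
  have h3 : Real.exp e1 * (1 - s / 2) * (1 + β) + ν * (1 + β) ≤ (e + ν) * (1 - β) := by
    have h4 : 2 * β * ν ≤ 2 * β * B := mul_le_mul_of_nonneg_left hνB (by positivity)
    have h5 : (1 - s / 2) * (1 + β) ≤ 1 + β - s / 2 := by nlinarith [mul_nonneg hs0 hβ0]
    have h6 : 1 + β - s / 2 ≤ (1 - β) - 2 * β * B := by nlinarith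
    have h7 : Real.exp e1 * ((1 - s / 2) * (1 + β)) ≤ Real.exp e1 * ((1 - β) - 2 * β * B) :=
      mul_le_mul_of_nonneg_left (h5.trans h6) (Real.exp_pos _).le
    have h8 : 2 * β * B ≤ Real.exp e1 * (2 * β * B) := by
      have : 0 ≤ 2 * β * B := by positivity
      nlinarith
    have h9 : Real.exp e1 * (1 - β) ≤ e * (1 - β) := mul_le_mul_of_nonneg_right he (by linarith)
    nlinarith
  have h7 : ν * (1 - β * k3) ≤ ν * (1 + β) := mul_le_mul_of_nonneg_left (by linarith [b3.2]) hν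
  have he0 : 0 ≤ e := le_trans (Real.exp_pos _).le he
  have h8 : (e + ν) * (1 - β) ≤ (e + ν) * (1 - β * k2) :=
    mul_le_mul_of_nonneg_left (by linarith [b2.1]) (by linarith)
  have h9 : Real.exp a' * (1 - β * k1) + ν * (Real.exp a * (1 - β * k3)) ≤
      (e + ν) * (Real.exp a * (1 - β * k2)) := by
    have h10 := mul_le_mul_of_nonneg_left h3 hea.le
    have h11 := mul_le_mul_of_nonneg_left h7 hea.le
    have h12 := mul_le_mul_of_nonneg_left h8 hea.le
    nlinarith
  have h13 := mul_le_mul_of_nonneg_left h9 hG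
  nlinarith

end Pool.Agent.Helper66.G5
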