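import Pool.Agent.Helper26.G4.StepInt
import Pool.Agent.Helper66.G5.Fun5
import Pool.Agent.Helper66.G5.Pt4

/-!
# G5-STEPINT: the integrated step of the flagged functional
-/

set_option autoImplicit false

namespace Pool.Agent.Helper66.G5

open MeasureTheory Set
open scoped Real
open Pool.Agent.Helper90.G2 (Bx Wn Fn ar ch Cen chi)
open Pool.Agent.Helper26.G4

/-- the conclusion of `key5` for fixed parameters -/
structure K5 (k : ℂ → ℝ) (b c₀ B Cc : ℝ) (ω : ℂ) (δ m : ℝ) : Prop where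
  key : ∀ s : ℂ, s ≠ 0 → ∀ r : ℝ, 2 * ‖s‖ ≤ r → ∀ ζ : ℂ, ζ ≠ 0 →
      ∃ ν : ℝ, 0 ≤ ν ∧ ν ≤ B ∧ ∃ H : ℂ → ℝ, Measurable H ∧ (∀ z, 0 ≤ H z) ∧
        (∀ z : ℂ, r ≤ ‖z‖ →
          Real.exp (δ * ((ω * s / z).re + ‖s‖ ^ 2 / ‖z‖ ^ 2)) * (1 - δ * b * k ((z - s) / ζ)) -
            Real.exp (δ * m) * (1 - δ * b * k (z / ζ)) +
            ν * (δ * b) * (k (z / ζ) - k (z / (ω * s / (2 * m)))) ≤ δ * H z) ∧
        (∀ z : ℂ, Cc * ‖s‖ / m ≤ ‖z‖ → H z = 0) ∧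
        ∫⁻ z, ENNReal.ofReal (H z) ≤ ENNReal.ofReal ((1 - c₀) * (π * ‖s‖ ^ 2 / (4 * m)))

/-- the old weight of a point which is close and does not wind much -/
theorem w_le5 {F : ℂ → ℂ} {A : ℝ} (hF : Fn F A) {Λ : ℂ → ℂ → ℂ} (hΛ : Br F Λ) {N d : ℕ}
    (hN : 2 ≤ N) (hd : d < N) {c ℓ : ℝ} (hℓ : 0 < ℓ) (hℓ1 : ℓ ≤ 1) {τ : ℂ} (hτ : 0 < ‖τ‖)
    (hτ1 : ‖τ‖ ≤ 1) {ε Cb : ℝ} (hCb : 8 ≤ Cb)
    (hs : ‖τ‖ * Real.log (Cb / ‖τ‖) ≤ ε) {u : ℂ}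
    (hu : u ∈ Bx (ch N c ℓ d) (ℓ / N))
    (hb : ¬ Bad F Λ (ε / ‖τ‖) (Cb / ‖τ‖) (vt c ℓ) u)
    (hz : ‖F (vt c ℓ) - F u‖ ≤ Cb / ‖τ‖ * rr F (vt c ℓ)) :
    al Λ τ (vt c ℓ) u ≤ w0 Λ τ (vt c ℓ) + 2 * ε := by
  have hw : |wd Λ (vt c ℓ) u| ≤ ε / ‖τ‖ := by
    by_contra hh
    push Not at hh
    exact hb ⟨hh, hz⟩
  have hpi := Real.pi_gt_three
  have hc := seg_ch hN hd (c := c) hℓ
  obtain ⟨hp, hle⟩ := seg_div hN hℓ
  have hu' := hu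
  obtain ⟨hu0, hu1, hu2⟩ := hu
  have him : |(vt c ℓ).im - u.im| ≤ π := by
    rw [Up_im_vt]
    have h6 : c - u.im = -(ch N c ℓ d - c) - (u.im - ch N c ℓ d) := by ring
    have h8 := abs_le.1 hc
    have h9 := abs_lt.1 hu2
    rw [abs_le, h6]
    constructor <;> linarith
  have h1 := Fn.koebe4 hF (v := vt c ℓ) (u := u) (ρ := ℓ) hℓ hu0
    (by rw [Up_re_vt]; linarith) (by linarith)
    (by
      have h2 := Complex.abs_re_le_norm (vt c ℓ - u)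
      rw [Complex.sub_re, Up_re_vt] at h2
      have h3 := (abs_le.1 h2).2
      linarith) him
  have h2 : rr F (vt c ℓ) ≤ 8 * ‖F (vt c ℓ) - F u‖ := by
    rw [rr, Up_re_vt]
    linarith
  have hCτ : 8 ≤ Cb / ‖τ‖ := by
    rw [le_div_iff₀ hτ]
    nlinarith
  have h3 := Up_re hF hΛ (v := vt c ℓ) (v' := vt c ℓ) (u := u) (by rw [Up_re_vt]; linarith) hu0
    (by rw [Up_re_vt]; linarith) (lt_of_le_of_lt him (by linarith [Real.pi_pos]))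
    (b := Cb / ‖τ‖) (by linarith) h2 hz hCτ
  have h4 : (Lb Λ (vt c ℓ) u - (Real.log (vt c ℓ).re + Λ (vt c ℓ) (vt c ℓ))).im =
      wd Λ (vt c ℓ) u := by
    rw [wd, Complex.sub_im, Complex.add_im, Complex.ofReal_im, Complex.sub_im]
    ring
  have h0 := Up_al Λ τ (vt c ℓ) (vt c ℓ) u
  rw [h4] at h0
  have h5 := mul_le_mul_of_nonneg_left (add_le_add h3 hw) hτ.le
  have h6 : ‖τ‖ * (ε / ‖τ‖) = ε := mul_div_cancel₀ ε hτ.ne'
  rw [mul_add, mul_add, h6] at h5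
  linarith

/-- the error function -/
noncomputable def G5 (K δ : ℝ) (H : ℂ → ℝ) (r Cn : ℝ) (z : ℂ) : ENNReal :=
  ENNReal.ofReal (K * δ) * (ENNReal.ofReal (H z) +
    (Metric.ball (0 : ℂ) r).indicator (fun _ => ENNReal.ofReal Cn) z)

theorem G5_meas (K δ : ℝ) {H : ℂ → ℝ} (hH : Measurable H) (r Cn : ℝ) : Measurable (G5 K δ H r Cn) := by
  unfold G5
  exact (hH.ennreal_ofReal.add (measurable_const.indicator measurableSet_ball)).const_mul _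

theorem G5_int {K δ : ℝ} (hK : 0 ≤ K) (hδ : 0 ≤ δ) {H : ℂ → ℝ} (hH : Measurable H) {r Cn I : ℝ}
    (hr : 0 ≤ r) (hCn : 0 ≤ Cn) (hI : 0 ≤ I)
    (h : ∫⁻ z, ENNReal.ofReal (H z) ≤ ENNReal.ofReal I) :
    ∫⁻ z, G5 K δ H r Cn z ≤ ENNReal.ofReal (K * (δ * (I + Cn * (π * r ^ 2)))) := by
  unfold G5
  rw [lintegral_const_mul' _ _ ENNReal.ofReal_ne_top, lintegral_add_left hH.ennreal_ofReal,
    lintegral_indicator measurableSet_ball, setLIntegral_const, Complex.volume_ball]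
  have e : K * (δ * (I + Cn * (π * r ^ 2))) = K * δ * (I + Cn * (π * r ^ 2)) := by ring
  rw [e, ENNReal.ofReal_mul (mul_nonneg hK hδ), ENNReal.ofReal_add hI (by positivity),
    ENNReal.ofReal_mul hCn]
  have e2 : ENNReal.ofReal r ^ 2 * (NNReal.pi : ENNReal) = ENNReal.ofReal (π * r ^ 2) := by
    rw [mul_comm π, ENNReal.ofReal_mul (by positivity), ENNReal.ofReal_pow hr]
    congr 1
    rw [← NNReal.coe_real_pi, ENNReal.ofReal_coe_nnreal]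
  rw [e2]
  gcongr

theorem step_int5 {F : ℂ → ℂ} {A : ℝ} (hF : Fn F A) {Λ : ℂ → ℂ → ℂ} (hΛ : Br F Λ) {N d : ℕ}
    (hN : 2 ≤ N) (hd : d < N) {c ℓ : ℝ} (hℓ : 0 < ℓ) (hℓ1 : ℓ ≤ 1) {τ : ℂ} (hτ : 0 < ‖τ‖)
    (hτ1 : ‖τ‖ ≤ 1) {ε m0 e1 s1 : ℝ} (hm : 1 ≤ m0) (he : 0 ≤ e1)
    {k : ℂ → ℝ} {b c₀ B Cc Cb : ℝ} (hk : ∀ z, |k z| ≤ 1) (hb : 0 ≤ b) (hb1 : b ≤ 1) (hB : 0 ≤ B)
    (hc₀ : c₀ ≤ 1) (hK : K5 k b c₀ B Cc (τ / ‖τ‖) ‖τ‖ (‖τ‖ * m0)) (hτN : ‖τ‖ * (10 * N) ≤ 1)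
    (hCb : 8 ≤ Cb) (hCc0 : 0 ≤ Cc) (hCb1 : Cc * KN N ≤ Cb) (hCb2 : 2 * KN N ≤ Cb)
    (hs : ‖τ‖ * Real.log (Cb / ‖τ‖) ≤ ε) (hs1 : 4 * (‖τ‖ * b) * (1 + B) ≤ s1) (hs2 : s1 ≤ 1)
    (f0 f1 : ℂ → ℝ) (χ0 χ1 : ℂ → Prop)
    (h : ∀ u ∈ Bx (ch N c ℓ d) (ℓ / N),
      (¬ Bad F Λ (ε / ‖τ‖) (Cb / ‖τ‖) (vt c ℓ) u ∧ χ0 u ∧ χ1 u ∧ f0 u = al Λ τ (vt c ℓ) u ∧
        f1 u = al Λ τ (vt (ch N c ℓ d) (ℓ / N)) u) ∨
      (¬ χ0 u ∧ ¬ χ1 u ∧ f1 u ≤ f0 u + e1) ∨ f1 u + s1 ≤ f0 u + e1) :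
    V5 F k (‖τ‖ * b) (Bx (ch N c ℓ d) (ℓ / N)) χ1 f1 (F (vt (ch N c ℓ d) (ℓ / N))) ≤
      ENNReal.ofReal (Real.exp (e1 + ‖τ‖ ^ 2 * m0)) *
        V5 F k (‖τ‖ * b) (Bx (ch N c ℓ d) (ℓ / N)) χ0 f0 (F (vt c ℓ)) +
      ENNReal.ofReal (Real.exp (w0 Λ τ (vt c ℓ) + 2 * ε) * (‖τ‖ * ((1 - c₀) *
        (π * ‖F (vt (ch N c ℓ d) (ℓ / N)) - F (vt c ℓ)‖ ^ 2 / (4 * (‖τ‖ * m0))) +
        (20 * N + 4 + 2 * B) * (π * (2 * KN N * rr F (vt c ℓ)) ^ 2)))) := by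
  have hπ := Real.pi_gt_three
  obtain ⟨hp, hle⟩ := seg_div hN hℓ
  have hN2 : (2 : ℝ) ≤ N := by exact_mod_cast hN
  have hv : 0 < (vt c ℓ).re := by
    show 0 < 2 * ℓ
    positivity
  have hR := rr_pos hF hv
  have hKN : 0 < KN N := Real.exp_pos _
  have hr : 0 < 2 * KN N * rr F (vt c ℓ) := by positivity
  have hm' : 0 < ‖τ‖ * m0 := mul_pos hτ (by linarith)
  have hω : ‖τ / ‖τ‖‖ = 1 := Step_omega hτ
  have hβ0 : 0 ≤ ‖τ‖ * b := by positivity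
  have hβ1 : ‖τ‖ * b ≤ 1 := by nlinarith
  have hCn : 0 ≤ 20 * (N : ℝ) + 4 + 2 * B := by positivity
  obtain ⟨Q, hQ⟩ : ∃ Q : Set ℂ, Q = Bx (ch N c ℓ d) (ℓ / N) := ⟨_, rfl⟩
  have hQm : MeasurableSet Q := by
    rw [hQ]
    exact Pool.Agent.Helper90.G2.meas_bx _ _
  have hQs : Q ⊆ {u | 0 < u.re ∧ |u.im - ch N c ℓ d| < π} := by
    rw [hQ]
    intro u hu
    exact ⟨hu.1, by linarith [hu.2.2]⟩
  obtain ⟨s, hsd⟩ : ∃ s : ℂ, s = F (vt (ch N c ℓ d) (ℓ / N)) - F (vt c ℓ) := ⟨_, rfl⟩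
  have hsn : ‖s‖ ≤ KN N * rr F (vt c ℓ) := by
    rw [hsd]
    exact disp_le hF hΛ hN hd hℓ hℓ1 (right_mem_segment ℝ _ _)
  have hs0 : s ≠ 0 := by
    rw [hsd, sub_ne_zero]
    have hc := seg_ch hN hd (c := c) hℓ
    refine Fn.ne hF (by show 0 < 2 * (ℓ / N); positivity) hv ?_ ?_
    · show |ch N c ℓ d - c| < 2 * π
      linarith
    · intro he
      have h1 := congrArg Complex.re he
      have h2 : 2 * (ℓ / N) = 2 * ℓ := h1
      linarith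
  have hζ₀ : τ / ‖τ‖ * s / (2 * ((‖τ‖ * m0 : ℝ) : ℂ)) ≠ 0 := by
    apply div_ne_zero
    · apply mul_ne_zero _ hs0
      rw [← norm_ne_zero_iff, hω]
      exact one_ne_zero
    · apply mul_ne_zero two_ne_zero
      exact_mod_cast hm'.ne'
  rw [← hsd]
  rw [← hQ] at h ⊢
  have hE0 : Real.exp (‖τ‖ * (‖τ‖ * m0)) ≤ Real.exp (e1 + ‖τ‖ ^ 2 * m0) :=
    Real.exp_le_exp.2 (by nlinarith)
  have hE1 : Real.exp e1 ≤ Real.exp (e1 + ‖τ‖ ^ 2 * m0) :=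
    Real.exp_le_exp.2 (by nlinarith [mul_pos hτ hm'])
  have hE2 : 1 ≤ Real.exp (e1 + ‖τ‖ ^ 2 * m0) := (Real.one_le_exp he).trans hE1
  refine V5_step hk hβ0 hβ1 hQm hζ₀ (B := B) (Real.exp_pos _) ?_
  intro ζ hζ
  obtain ⟨ν, hν, hνB, H, hHm, hH0, hkey, hHz, hHI⟩ := hK.key s hs0 (2 * KN N * rr F (vt c ℓ))
    (by linarith) ζ hζ
  have hKe : 0 < Real.exp (w0 Λ τ (vt c ℓ) + 2 * ε) := Real.exp_pos _
  obtain ⟨G, hG⟩ : ∃ G : ℂ → ENNReal, G = G5 (Real.exp (w0 Λ τ (vt c ℓ) + 2 * ε)) ‖τ‖ H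
    (2 * KN N * rr F (vt c ℓ)) (20 * N + 4 + 2 * B) := ⟨_, rfl⟩
  have hGm : Measurable G := by
    rw [hG]
    exact G5_meas _ _ hHm _ _
  have hFc : ContinuousOn F Q := hF.diff.continuousOn.mono fun u hu => (hQs hu).1
  refine ⟨ν, hν, hνB, fun u => ENNReal.ofReal (‖deriv F u‖ ^ 2) * G (F u - F (vt c ℓ)), ?_, ?_, ?_⟩
  · refine AEMeasurable.mul ?_ ?_
    · exact (((measurable_deriv F).norm.pow_const 2).ennreal_ofReal).aemeasurable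
    · exact hGm.comp_aemeasurable ((hFc.aemeasurable hQm).sub_const _)
  · intro u hu
    have hu' : u ∈ Bx (ch N c ℓ d) (ℓ / N) := by rwa [← hQ]
    have hD : 0 ≤ ‖deriv F u‖ ^ 2 := by positivity
    obtain ⟨z, hz⟩ : ∃ z : ℂ, z = F u - F (vt c ℓ) := ⟨_, rfl⟩
    have hzs : F u - F (vt (ch N c ℓ d) (ℓ / N)) = z - s := by
      rw [hz, hsd]
      ring
    beta_reduce
    rw [← hz]
    rcases h u hu with ⟨hnb, hc0, hc1, hf0, hf1⟩ | ⟨hc0, hc1, hf⟩ | hf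
    · -- regular
      rw [jj_on hc1, jj_on hc0, jj_on hc0, hzs, ← hz]
      have hmv := move_le hF hΛ hN hd hℓ hℓ1 hτ hu'
      rw [← hsd, ← hz, ← hf0, ← hf1] at hmv
      have hwle : ‖F (vt c ℓ) - F u‖ ≤ Cb / ‖τ‖ * rr F (vt c ℓ) →
          Real.exp (f0 u) ≤ Real.exp (w0 Λ τ (vt c ℓ) + 2 * ε) := by
        intro h1
        rw [hf0]
        exact Real.exp_le_exp.2 (w_le5 hF hΛ hN hd hℓ hℓ1 hτ hτ1 hCb hs hu' hnb h1)
      have hzn : ‖F (vt c ℓ) - F u‖ = ‖z‖ := by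
        rw [hz, norm_sub_rev]
      rw [hzn] at hwle
      rcases lt_or_ge ‖z‖ (2 * KN N * rr F (vt c ℓ)) with hlt | hge
      · -- near
        unfold Xh at hmv
        rw [if_pos hlt] at hmv
        have h1 := pt_near (G := ‖deriv F u‖ ^ 2) (β := ‖τ‖ * b) (ν := ν)
          (k1 := k ((z - s) / ζ)) (k2 := k (z / ζ))
          (k3 := k (z / (τ / ‖τ‖ * s / (2 * ((‖τ‖ * m0 : ℝ) : ℂ))))) (a := f0 u) (a' := f1 u)
          (e := Real.exp (e1 + ‖τ‖ ^ 2 * m0)) (Y := 10 * N) (B := B) (b := b) (δ := ‖τ‖)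
          hD hτ.le hb hb1 rfl hβ1 (hk _) (hk _) (hk _) hν hνB (by linarith) (by positivity)
          hτN hE2
        have h2 : Real.exp (f0 u) ≤ Real.exp (w0 Λ τ (vt c ℓ) + 2 * ε) := by
          apply hwle
          have h3 : 2 * KN N ≤ Cb / ‖τ‖ := by
            rw [le_div_iff₀ hτ]
            nlinarith
          exact hlt.le.trans (mul_le_mul_of_nonneg_right h3 hR.le)
        have h4 : ‖deriv F u‖ ^ 2 * (Real.exp (f0 u) * (‖τ‖ * (2 * (10 * N) + 4 + 2 * B))) ≤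
            ‖deriv F u‖ ^ 2 * (Real.exp (w0 Λ τ (vt c ℓ) + 2 * ε) * ‖τ‖ *
              (H z + (20 * N + 4 + 2 * B))) := by
          apply mul_le_mul_of_nonneg_left _ hD
          have h5 : 2 * (10 * (N : ℝ)) + 4 + 2 * B = 20 * N + 4 + 2 * B := by ring
          rw [h5, mul_assoc (Real.exp (w0 Λ τ (vt c ℓ) + 2 * ε))]
          apply mul_le_mul h2 _ (by positivity) hKe.le
          apply mul_le_mul_of_nonneg_left _ hτ.le
          linarith [hH0 z]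
        have h6 : ENNReal.ofReal (‖deriv F u‖ ^ 2) * G z =
            ENNReal.ofReal (‖deriv F u‖ ^ 2 * (Real.exp (w0 Λ τ (vt c ℓ) + 2 * ε) * ‖τ‖ *
              (H z + (20 * N + 4 + 2 * B)))) := by
          rw [hG]
          unfold G5
          rw [indicator_of_mem (by rw [mem_ball_zero_iff]; exact hlt),
            ← ENNReal.ofReal_add (hH0 z) hCn, ← ENNReal.ofReal_mul (by positivity),
            ← ENNReal.ofReal_mul hD]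
        rw [h6, ← ENNReal.ofReal_add _ (le_trans (by positivity) h4)]
        · exact ENNReal.ofReal_le_ofReal (h1.trans (by linarith))
        · have h7 := (abs_le.1 (hk (z / ζ))).2
          have h8 : ‖τ‖ * b * k (z / ζ) ≤ 1 := by nlinarith
          have h9 : 0 ≤ 1 - ‖τ‖ * b * k (z / ζ) := by linarith
          positivity
      · -- far
        unfold Xh at hmv
        rw [if_neg (not_lt.2 hge)] at hmv
        have hb' : ∀ x : ℝ, |x| ≤ 1 → ‖τ‖ * b * x ≤ 1 := by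
          intro x hx
          have := (abs_le.1 hx).2
          nlinarith
        have hk0 := hkey z hge
        have h1 := pt_far (G := ‖deriv F u‖ ^ 2) (β := ‖τ‖ * b) (ν := ν)
          (k1 := k ((z - s) / ζ)) (k2 := k (z / ζ))
          (k3 := k (z / (τ / ‖τ‖ * s / (2 * ((‖τ‖ * m0 : ℝ) : ℂ))))) (a := f0 u) (a' := f1 u)
          (E0 := Real.exp (‖τ‖ * (‖τ‖ * m0)))
          (e := Real.exp (e1 + ‖τ‖ ^ 2 * m0))
          (X := (τ / ‖τ‖ * s / z).re + ‖s‖ ^ 2 / ‖z‖ ^ 2) (H := H z) (δ := ‖τ‖)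
          hD (hb' _ (hk _)) (hb' _ (hk _)) (by linarith) hk0 hE0
        have h4 : ‖deriv F u‖ ^ 2 * (Real.exp (f0 u) * (‖τ‖ * H z)) ≤
            ‖deriv F u‖ ^ 2 * (Real.exp (w0 Λ τ (vt c ℓ) + 2 * ε) * ‖τ‖ * H z) := by
          apply mul_le_mul_of_nonneg_left _ hD
          rw [mul_assoc (Real.exp (w0 Λ τ (vt c ℓ) + 2 * ε))]
          by_cases hz0 : H z = 0
          · rw [hz0, mul_zero, mul_zero, mul_zero]
          · have h5 : ‖z‖ < Cc * ‖s‖ / (‖τ‖ * m0) := by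
              by_contra hcon
              push Not at hcon
              exact hz0 (hHz z hcon)
            apply mul_le_mul_of_nonneg_right _ (mul_nonneg hτ.le (hH0 z))
            apply hwle
            calc ‖z‖ ≤ Cc * ‖s‖ / (‖τ‖ * m0) := h5.le
              _ ≤ Cc * ‖s‖ / ‖τ‖ := by
                  apply div_le_div_of_nonneg_left (by positivity) hτ
                  nlinarith
              _ ≤ Cc * (KN N * rr F (vt c ℓ)) / ‖τ‖ := by gcongr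
              _ = Cc * KN N / ‖τ‖ * rr F (vt c ℓ) := by ring
              _ ≤ Cb / ‖τ‖ * rr F (vt c ℓ) := by gcongr
        have h6 : ENNReal.ofReal (‖deriv F u‖ ^ 2) * G z =
            ENNReal.ofReal (‖deriv F u‖ ^ 2 * (Real.exp (w0 Λ τ (vt c ℓ) + 2 * ε) * ‖τ‖ * H z)) := by
          rw [hG]
          unfold G5
          rw [indicator_of_notMem (by rw [mem_ball_zero_iff]; exact not_lt.2 hge), add_zero,
            ← ENNReal.ofReal_mul (by positivity), ← ENNReal.ofReal_mul hD]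
        have hHz0 := hH0 z
        rw [h6, ← ENNReal.ofReal_add _ (by positivity)]
        · exact ENNReal.ofReal_le_ofReal (h1.trans (by linarith))
        · have h8 := hb' _ (hk (z / ζ))
          have h9 : 0 ≤ 1 - ‖τ‖ * b * k (z / ζ) := by linarith
          positivity
    · -- frozen
      rw [jj_off hc1, jj_off hc0, jj_off hc0]
      have h1 := pt_off (G := ‖deriv F u‖ ^ 2) (ν := ν) hD hf hE1
      refine (ENNReal.ofReal_le_ofReal h1).trans le_self_add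
    · -- switch
      obtain ⟨x1, hx1, e1'⟩ := jj_flag (F := F) (β := ‖τ‖ * b) (χ := χ1) (f := f1)
        (p := F (vt (ch N c ℓ d) (ℓ / N))) (ζ := ζ) (u := u) hk
      obtain ⟨x2, hx2, e2'⟩ := jj_flag (F := F) (β := ‖τ‖ * b) (χ := χ0) (f := f0)
        (p := F (vt c ℓ)) (ζ := ζ) (u := u) hk
      obtain ⟨x3, hx3, e3'⟩ := jj_flag (F := F) (β := ‖τ‖ * b) (χ := χ0) (f := f0)
        (p := F (vt c ℓ)) (ζ := τ / ‖τ‖ * s / (2 * ((‖τ‖ * m0 : ℝ) : ℂ))) (u := u) hk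
      rw [e1', e2', e3']
      have h1 := pt_switch (G := ‖deriv F u‖ ^ 2) (β := ‖τ‖ * b) (ν := ν) (k1 := x1) (k2 := x2)
        (k3 := x3) (a := f0 u) (a' := f1 u) (e1 := e1) (s := s1)
        (e := Real.exp (e1 + ‖τ‖ ^ 2 * m0)) (B := B) hD hβ0 hβ1 hx1 hx2 hx3 hν hνB hf he hE1
        hs1 hs2
      exact (ENNReal.ofReal_le_ofReal h1).trans le_self_add
  · refine (Fn.cov_shift hF hQm hQs hGm (F (vt c ℓ))).trans ?_
    rw [hG]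
    exact G5_int hKe.le hτ.le hHm hr.le hCn (by
      have : 0 ≤ 1 - c₀ := by linarith
      positivity) hHI

end Pool.Agent.Helper66.G5
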